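import Pool.Agent.N343.TC.Stm

/-! Elementary estimates for the explicit functions (project TC, step HN). -/

set_option autoImplicit false

open MeasureTheory Set Filter Topology Metric Complex

namespace Pool.Agent.N434.TC

open Pool.Agent.N343.TC

theorem pow_sub_one (u : ℂ) (n : ℕ) : ‖(1 + u) ^ n - 1‖ ≤ (1 + ‖u‖) ^ n - 1 := by
  induction n with
  | zero => simp
  | succ n ih =>
    have h1 : (1 + u) ^ (n + 1) - 1 = ((1 + u) ^ n - 1) * (1 + u) + u := by ring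
    rw [h1]
    have h2 : ‖1 + u‖ ≤ 1 + ‖u‖ := (norm_add_le _ _).trans (by simp)
    calc ‖((1 + u) ^ n - 1) * (1 + u) + u‖ ≤ ‖((1 + u) ^ n - 1) * (1 + u)‖ + ‖u‖ :=
          norm_add_le _ _
      _ = ‖(1 + u) ^ n - 1‖ * ‖1 + u‖ + ‖u‖ := by rw [norm_mul]
      _ ≤ ((1 + ‖u‖) ^ n - 1) * (1 + ‖u‖) + ‖u‖ := by
          have h3 : (0 : ℝ) ≤ (1 + ‖u‖) ^ n - 1 := (norm_nonneg _).trans ih
          gcongr
      _ = (1 + ‖u‖) ^ (n + 1) - 1 := by ring

theorem pow_le {M : ℝ} (k : ℕ) (hM : 0 ≤ M) (hk : 0 < (k : ℝ)) (hkM : M ≤ k) :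
    (1 + M / (k : ℝ) ^ 2) ^ k ≤ 1 + 2 * (M / k) := by
  have h1 : (1 + M / (k : ℝ) ^ 2) ≤ Real.exp (M / (k : ℝ) ^ 2) := by
    have := Real.add_one_le_exp (M / (k : ℝ) ^ 2)
    linarith
  have h0 : 0 ≤ 1 + M / (k : ℝ) ^ 2 := by positivity
  have h2 : (1 + M / (k : ℝ) ^ 2) ^ k ≤ Real.exp (M / k) := by
    calc (1 + M / (k : ℝ) ^ 2) ^ k ≤ (Real.exp (M / (k : ℝ) ^ 2)) ^ k := by gcongr
      _ = Real.exp (M / k) := by
        rw [← Real.exp_nat_mul]
        congr 1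
        field_simp
  have h3 : 0 ≤ M / k := by positivity
  have h4 : M / k ≤ 1 := by rw [div_le_one hk]; exact hkM
  have h5 := Real.abs_exp_sub_one_le (x := M / k) (by rw [abs_of_nonneg h3]; exact h4)
  rw [abs_of_nonneg h3] at h5
  have h6 := le_abs_self (Real.exp (M / k) - 1)
  linarith

theorem main (hS : S_SEQ) : S_HN := by
  intro C
  obtain ⟨C1, hC1, hS⟩ := hS
  obtain ⟨C0, hC0, hCC⟩ : ∃ C0 : ℝ, 0 ≤ C0 ∧ C ≤ C0 := ⟨max C 0, le_max_right _ _, le_max_left _ _⟩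
  obtain ⟨M, hM⟩ : ∃ M : ℝ, M = 5 + C0 := ⟨_, rfl⟩
  have hM5 : 5 ≤ M := by linarith
  have hM0 : 0 ≤ M := by linarith
  obtain ⟨C', hC'⟩ : ∃ C' : ℝ, C' = C0 + 6 * C1 + 6 * M + M * (3 + 6 * C1) := ⟨_, rfl⟩
  have hp1 : 0 ≤ M * (3 + 6 * C1) := by positivity
  refine ⟨C', max 6 (⌈10 * M⌉₊), ?_⟩
  intro k hk W hW hb
  have hk6 : 6 ≤ k := (le_max_left _ _).trans hk
  have hkM : 10 * M ≤ k := (Nat.le_ceil _).trans (by exact_mod_cast (le_max_right _ _).trans hk)
  have hk0 : (0 : ℝ) < k := by linarith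
  have hk1 : (1 : ℝ) ≤ k := by linarith
  have hkc : (k : ℂ) ≠ 0 := by
    have : k ≠ 0 := by omega
    exact_mod_cast this
  obtain ⟨s1, s2, -, -, -, -, -, hR0, hR1, hRk, -, -⟩ := hS k hk6
  -- the bound for W
  have hWb : ∀ x ∈ ball (0 : ℂ) 2, ‖W x + (321 / 160 : ℂ) * x‖ ≤ C0 / k := fun x hx =>
    (hb x hx).trans (by gcongr)
  have hWM : ∀ x ∈ ball (0 : ℂ) 2, ‖W x‖ ≤ M := by
    intro x hx
    have h1 := hWb x hx
    have h2 : ‖x‖ < 2 := by simpa using hx
    have h3 : W x = (W x + (321 / 160 : ℂ) * x) - (321 / 160 : ℂ) * x := by ring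
    have h4 : C0 / k ≤ C0 := div_le_self hC0 hk1
    have h5 : ‖(321 / 160 : ℂ) * x‖ = 321 / 160 * ‖x‖ := by
      rw [norm_mul]
      congr 1
      simp
    calc ‖W x‖ = ‖(W x + (321 / 160 : ℂ) * x) - (321 / 160 : ℂ) * x‖ := by rw [← h3]
      _ ≤ ‖W x + (321 / 160 : ℂ) * x‖ + ‖(321 / 160 : ℂ) * x‖ := norm_sub_le _ _
      _ ≤ M := by rw [h5]; linarith
  -- (1)
  have n1 : Near (-(321 / 160)) C' k (HZ k W) := by
    refine ⟨(hW.div_const _).const_add 1, fun x hx => ?_⟩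
    have h1 : (k : ℂ) ^ 2 * (HZ k W x - 1) - ((-(321 / 160) : ℝ) : ℂ) * x =
        W x + (321 / 160 : ℂ) * x := by
      unfold HZ
      push_cast
      field_simp
      ring
    rw [h1]
    refine (hWb x hx).trans ?_
    gcongr
    linarith
  -- (2)
  have key : ∀ x : ℂ, ‖x‖ ≤ 2 → ‖(k : ℂ) ^ 2 * (AA k x - 1) - (3 / 2 : ℂ) * x‖ ≤ 6 * C1 / k := by
    intro x hx
    have h1 : (k : ℂ) ^ 2 * (AA k x - 1) - (3 / 2 : ℂ) * x =
        (((k : ℝ) ^ 2 * aa k - 3 / 2 : ℝ) : ℂ) * x + (((k : ℝ) ^ 2 * bb k : ℝ) : ℂ) * x ^ 2 := by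
      unfold AA
      push_cast
      ring
    rw [h1]
    refine (norm_add_le _ _).trans ?_
    rw [norm_mul, norm_mul, norm_pow, Complex.norm_real, Complex.norm_real, Real.norm_eq_abs,
      Real.norm_eq_abs]
    have h2 : ‖x‖ ^ 2 ≤ 4 := by nlinarith [norm_nonneg x]
    have h3 : |(k : ℝ) ^ 2 * aa k - 3 / 2| * ‖x‖ ≤ C1 / k * 2 := by gcongr
    have h4 : |(k : ℝ) ^ 2 * bb k| * ‖x‖ ^ 2 ≤ C1 / k * 4 := by gcongr
    calc _ ≤ C1 / k * 2 + C1 / k * 4 := add_le_add h3 h4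
      _ = 6 * C1 / k := by ring
  have n2 : Near (3 / 2) C' k (AA k) := by
    refine ⟨?_, fun x hx => ?_⟩
    · apply Differentiable.differentiableOn
      unfold AA
      fun_prop
    · have hx2 : ‖x‖ ≤ 2 := by
        have : ‖x‖ < 2 := by simpa using hx
        exact this.le
      have h1 := key x hx2
      have h2 : (((3 / 2 : ℝ)) : ℂ) = 3 / 2 := by push_cast; ring
      rw [h2]
      refine h1.trans ?_
      gcongr
      linarith
  -- (3)
  have n3 : Near (-(129 / 160)) C' k (HH k W) := by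
    refine ⟨?_, fun x hx => ?_⟩
    · have d1 := n1.1
      have d2 : DifferentiableOn ℂ (TT k W) (ball 0 2) := by
        unfold TT
        exact ((differentiableOn_const _).mul differentiableOn_id).mul (d1.pow k)
      unfold HH AA
      exact d1.mul (((differentiableOn_const _).add ((differentiableOn_const _).mul d2)).add
        ((differentiableOn_const _).mul (d2.pow 2)))
    · have hx2 : ‖x‖ ≤ 2 := by
        have : ‖x‖ < 2 := by simpa using hx
        exact this.le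
      have hw := hWM x hx
      have hw1 := hWb x hx
      have hz : ‖(HZ k W x) ^ k - 1‖ ≤ 2 * (M / k) := by
        have h1 := pow_sub_one (W x / (k : ℂ) ^ 2) k
        have h2 : ‖W x / (k : ℂ) ^ 2‖ ≤ M / (k : ℝ) ^ 2 := by
          rw [norm_div, norm_pow, Complex.norm_natCast]
          gcongr
        have h3 : (1 + ‖W x / (k : ℂ) ^ 2‖) ^ k ≤ (1 + M / (k : ℝ) ^ 2) ^ k := by gcongr
        have h4 := pow_le k hM0 hk0 (by linarith : M ≤ k)
        have h5 : HZ k W x = 1 + W x / (k : ℂ) ^ 2 := rfl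
        rw [h5]
        linarith
      have ht : ‖TT k W x - (4 / 5 : ℂ) * x‖ ≤ 4 * M / k := by
        have h1 : TT k W x - (4 / 5 : ℂ) * x = (4 / 5 : ℂ) * (x * ((HZ k W x) ^ k - 1)) := by
          unfold TT
          ring
        rw [h1, norm_mul, norm_mul]
        have h2 : ‖(4 / 5 : ℂ)‖ = 4 / 5 := by simp
        rw [h2]
        have h3 : ‖x‖ * ‖(HZ k W x) ^ k - 1‖ ≤ 2 * (2 * (M / k)) := by gcongr
        have h4 : 0 ≤ M / k := by positivity
        calc 4 / 5 * (‖x‖ * ‖(HZ k W x) ^ k - 1‖) ≤ 4 / 5 * (2 * (2 * (M / k))) := by gcongr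
          _ ≤ 4 * (M / k) := by linarith
          _ = 4 * M / k := by ring
      have ht2 : ‖TT k W x‖ ≤ 2 := by
        have h1 : TT k W x = (TT k W x - (4 / 5 : ℂ) * x) + (4 / 5 : ℂ) * x := by ring
        have h2 : ‖(4 / 5 : ℂ) * x‖ ≤ 8 / 5 := by
          rw [norm_mul]
          have h2 : ‖(4 / 5 : ℂ)‖ = 4 / 5 := by simp
          rw [h2]
          linarith
        have h3 : 4 * M / k ≤ 2 / 5 := by
          rw [div_le_iff₀ hk0]
          linarith
        rw [h1]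
        refine (norm_add_le _ _).trans ?_
        linarith
      have hE := key _ ht2
      have hE2 : ‖(k : ℂ) ^ 2 * (AA k (TT k W x) - 1)‖ ≤ 3 + 6 * C1 := by
        have h1 : (k : ℂ) ^ 2 * (AA k (TT k W x) - 1) =
          ((k : ℂ) ^ 2 * (AA k (TT k W x) - 1) - (3 / 2 : ℂ) * TT k W x) +
            (3 / 2 : ℂ) * TT k W x := by ring
        rw [h1]
        refine (norm_add_le _ _).trans ?_
        have h2 : ‖(3 / 2 : ℂ) * TT k W x‖ ≤ 3 := by
          rw [norm_mul]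
          have h2 : ‖(3 / 2 : ℂ)‖ = 3 / 2 := by simp
          rw [h2]
          linarith
        have h3 : 6 * C1 / k ≤ 6 * C1 := div_le_self (by positivity) hk1
        linarith
      have hsum : (k : ℂ) ^ 2 * (HH k W x - 1) - ((-(129 / 160) : ℝ) : ℂ) * x =
          (W x + (321 / 160 : ℂ) * x) +
          ((k : ℂ) ^ 2 * (AA k (TT k W x) - 1) - (3 / 2 : ℂ) * TT k W x) +
          (3 / 2 : ℂ) * (TT k W x - (4 / 5 : ℂ) * x) +
          W x / (k : ℂ) ^ 2 * ((k : ℂ) ^ 2 * (AA k (TT k W x) - 1)) := by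
        unfold HH
        generalize AA k (TT k W x) = A
        generalize TT k W x = t
        unfold HZ
        push_cast
        field_simp
        ring
      rw [hsum]
      have b3 : ‖(3 / 2 : ℂ) * (TT k W x - (4 / 5 : ℂ) * x)‖ ≤ 6 * M / k := by
        rw [norm_mul]
        have h2 : ‖(3 / 2 : ℂ)‖ = 3 / 2 := by simp
        rw [h2]
        calc 3 / 2 * ‖TT k W x - (4 / 5 : ℂ) * x‖ ≤ 3 / 2 * (4 * M / k) := by gcongr
          _ = 6 * M / k := by ring
      have b4 : ‖W x / (k : ℂ) ^ 2 * ((k : ℂ) ^ 2 * (AA k (TT k W x) - 1))‖ ≤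
          M * (3 + 6 * C1) / k := by
        rw [norm_mul, norm_div, norm_pow, Complex.norm_natCast]
        calc ‖W x‖ / (k : ℝ) ^ 2 * ‖(k : ℂ) ^ 2 * (AA k (TT k W x) - 1)‖ ≤
            M / (k : ℝ) ^ 2 * (3 + 6 * C1) := by gcongr
          _ = M * (3 + 6 * C1) / (k : ℝ) ^ 2 := by ring
          _ ≤ M * (3 + 6 * C1) / k := by
            gcongr
            nlinarith
      refine (norm_add_le _ _).trans ?_
      refine (add_le_add_left (norm_add_le _ _) _).trans ?_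
      refine (add_le_add_left (add_le_add_left (norm_add_le _ _) _) _).trans ?_
      have e : C' / k = C0 / k + 6 * C1 / k + 6 * M / k + M * (3 + 6 * C1) / k := by
        rw [hC']
        ring
      rw [e]
      linarith
  refine ⟨n1, n3, n2, fun w hw => ?_⟩
  have hw1 : ‖w‖ ≤ 1 := by simpa using hw
  have hwk : w ^ k ∈ ball (0 : ℂ) 2 := by
    have : ‖w‖ ^ k ≤ 1 := pow_le_one₀ (norm_nonneg _) hw1
    simp only [mem_ball, dist_zero_right, norm_pow]
    linarith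
  have hz1 : ‖W (w ^ k) / (k : ℂ) ^ 2‖ ≤ M / (k : ℝ) ^ 2 := by
    rw [norm_div, norm_pow, Complex.norm_natCast]
    have := hWM _ hwk
    gcongr
  have hz2 : ‖HZ k W (w ^ k)‖ ≤ 1 + M / (k : ℝ) ^ 2 := by
    unfold HZ
    refine (norm_add_le _ _).trans ?_
    simp only [norm_one]
    linarith
  have hMk : M / (k : ℝ) ^ 2 < 1 := by
    rw [div_lt_one (by positivity)]
    nlinarith
  have hR : RR k * (1 + M / (k : ℝ) ^ 2) < 1 := by
    by_contra hcon
    push Not at hcon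
    have h1 : 1 ≤ (RR k * (1 + M / (k : ℝ) ^ 2)) ^ k := one_le_pow₀ hcon
    rw [mul_pow, hRk] at h1
    have h2 := pow_le k hM0 hk0 (by linarith : M ≤ k)
    have h3 : M / k ≤ 1 / 10 := by
      rw [div_le_iff₀ hk0]
      linarith
    linarith
  constructor
  · simp only [mem_ball, dist_zero_right]
    unfold Pool.Agent.N343.TC.mk
    rw [norm_mul, norm_mul, Complex.norm_real, Real.norm_eq_abs, abs_of_pos hR0]
    calc RR k * ‖w‖ * ‖HZ k W (w ^ k)‖ ≤ RR k * 1 * (1 + M / (k : ℝ) ^ 2) := by gcongr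
      _ = RR k * (1 + M / (k : ℝ) ^ 2) := by ring
      _ < 1 := hR
  · intro hw0
    have h1 : HZ k W (w ^ k) ≠ 0 := by
      intro h
      have h2 : W (w ^ k) / (k : ℂ) ^ 2 = -1 := by
        unfold HZ at h
        linear_combination h
      rw [h2] at hz1
      simp only [norm_neg, norm_one] at hz1
      linarith
    unfold Pool.Agent.N343.TC.mk
    exact mul_ne_zero (mul_ne_zero (by exact_mod_cast hR0.ne') hw0) h1

end Pool.Agent.N434.TC
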